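import Mathlib

set_option autoImplicit false
open MeasureTheory ProbabilityTheory Finset Filter Topology

namespace Pool.Agent.H.MP_d5803c_pr

def Av (a : ℕ → ℝ) : Prop := Tendsto (fun n : ℕ => (n : ℝ)⁻¹ * ∑ j ∈ range n, a j) atTop (𝓝 0)

theorem Av.add {a b : ℕ → ℝ} (h : Av a) (k : Av b) : Av fun j => a j + b j := by
  simpa [Av, sum_add_distrib, mul_add] using Tendsto.add h k

theorem Av.mul {a : ℕ → ℝ} (h : Av a) (c : ℝ) : Av fun j => c * a j := by
  simpa [Av, ← mul_sum, mul_left_comm] using Tendsto.const_mul c h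

theorem Av.mono {a b : ℕ → ℝ} (h : Av b) (h0 : ∀ j, 0 ≤ a j) (h1 : ∀ j, a j ≤ b j) : Av a :=
  squeeze_zero (fun _ => mul_nonneg (by positivity) (sum_nonneg fun j _ => h0 j))
    (fun _ => mul_le_mul_of_nonneg_left (sum_le_sum fun j _ => h1 j) (by positivity)) h

theorem tele {E : Type*} [NormedAddCommGroup E] [NormedSpace ℝ E] {a : ℕ → E} {M : ℝ}
    (h : ∀ j, ‖a j‖ ≤ M) :
    Tendsto (fun n : ℕ => (n : ℝ)⁻¹ • ∑ j ∈ range n, (a (j + 1) - a j)) atTop (𝓝 0) := by
  simp only [sum_range_sub]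
  exact NormedField.tendsto_zero_smul_of_tendsto_zero_of_bounded tendsto_inv_atTop_nhds_zero_nat
    (isBoundedUnder_of ⟨M + M, fun n => (norm_sub_le _ _).trans (add_le_add (h _) (h _))⟩)

theorem Av.small {b : ℕ → ℝ} (h0 : ∀ j, 0 ≤ b j)
    (h : ∀ ε > 0, ∃ c, Av c ∧ ∀ j, b j ≤ ε + c j) : Av b := by
  refine tendsto_order.2 ⟨fun x hx => Eventually.of_forall fun n => hx.trans_le
    (mul_nonneg (by positivity) (sum_nonneg fun j _ => h0 j)), fun x hx => ?_⟩
  obtain ⟨c, h1, h2⟩ := h (x / 2) (by positivity)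
  filter_upwards [h1.eventually (gt_mem_nhds (half_pos hx)), eventually_gt_atTop 0] with n h3 h4
  have := mul_le_mul_of_nonneg_left (sum_le_sum (s := range n) fun j _ => h2 j)
    (by positivity : (0 : ℝ) ≤ (n : ℝ)⁻¹)
  rw [sum_add_distrib, mul_add, sum_const, card_range, nsmul_eq_mul, inv_mul_cancel_left₀
    (by positivity)] at this
  linarith

theorem pow_sub {g u : ℂ} (hg : ‖g‖ = 1) (hu : ‖u‖ = 1) (n : ℕ) {ε : ℝ} (hε : 0 < ε) :
    ‖g ^ n - u ^ n‖ ≤ n * (ε + 2 / ε * (1 - (u⁻¹ * g).re)) := by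
  have a : ‖g - u‖ ≤ ε + 2 / ε * (1 - (u⁻¹ * g).re) := by
    have e : ‖g - u‖ ^ 2 = 2 * (1 - (u⁻¹ * g).re) := by
      have h1 := Complex.sq_norm g
      have h2 := Complex.sq_norm u
      rw [Complex.sq_norm, Complex.inv_eq_conj hu]
      simp only [hg, hu, Complex.normSq_apply] at h1 h2
      simp [Complex.normSq_apply]; linarith
    rw [div_mul_eq_mul_div, ← e, ← sub_le_iff_le_add', le_div_iff₀ hε]
    nlinarith [sq_nonneg (‖g - u‖ - ε), mul_nonneg (norm_nonneg (g - u)) hε.le]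
  induction n with
  | zero => simp
  | succ n ih =>
    rw [show g ^ (n + 1) - u ^ (n + 1) = (g ^ n - u ^ n) * g + u ^ n * (g - u) by ring]
    refine (norm_add_le _ _).trans ?_
    simp only [norm_mul, norm_pow, hg, hu, one_pow, mul_one, one_mul]
    push_cast; linarith

variable {α : Type*} [MeasurableSpace α]

def BM (α : Type*) [MeasurableSpace α] : Submodule ℂ (α → ℂ) where
  carrier := {f | Measurable f ∧ ∃ M, ∀ x, ‖f x‖ ≤ M}
  add_mem' := fun ⟨h1, M, h2⟩ ⟨h3, N, h4⟩ => ⟨h1.add h3, M + N, fun x =>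
    (norm_add_le _ _).trans (add_le_add (h2 x) (h4 x))⟩
  zero_mem' := ⟨measurable_const, 0, by simp⟩
  smul_mem' := fun c _ ⟨h1, M, h2⟩ => ⟨h1.const_smul c, ‖c‖ * M, fun x =>
    (norm_mul_le _ _).trans (mul_le_mul_of_nonneg_left (h2 x) (norm_nonneg _))⟩

theorem BM.int (f : BM α) (μ : Measure α) [IsFiniteMeasure μ] : Integrable f.1 μ :=
  .of_bound f.2.1.aestronglyMeasurable _ (Eventually.of_forall f.2.2.choose_spec)

noncomputable def TT (τ : Kernel α α) [IsFiniteKernel τ] : BM α →ₗ[ℂ] BM α where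
  toFun f := ⟨fun x => ∫ y, f.1 y ∂τ x, f.2.1.stronglyMeasurable.integral_kernel.measurable,
    max 0 f.2.2.choose * τ.bound.toReal, fun x => (norm_integral_le_of_norm_le_const
      (Eventually.of_forall fun y => le_max_of_le_right (f.2.2.choose_spec y))).trans
      (mul_le_mul_of_nonneg_left (ENNReal.toReal_mono τ.bound_ne_top (τ.measure_le_bound x _))
        (le_max_left _ _))⟩
  map_add' f g := Subtype.ext (funext fun x => integral_add (BM.int f _) (BM.int g _))
  map_smul' c f := Subtype.ext (funext fun x => integral_smul c f.1)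

theorem TT_mem {τ : Kernel α α} [IsFiniteKernel τ] {V : Submodule ℂ (α → ℂ)}
    [FiniteDimensional ℂ V] (hV : ∀ B, MeasurableSet B → (fun x => ((τ x).real B : ℂ)) ∈ V)
    (f : BM α) : (TT τ f).1 ∈ V := by
  obtain ⟨f, h1, M, h2⟩ := f
  have s := h1.stronglyMeasurable
  have b := s.norm_approxBounded_le (le_max_left 0 M)
  refine V.closed_of_finiteDimensional.mem_of_tendsto (b := atTop)
    (f := fun n x => ∫ y, s.approxBounded (max 0 M) n y ∂τ x) (tendsto_pi_nhds.2 fun x =>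
      tendsto_integral_of_dominated_convergence (fun _ => max 0 M) (fun n =>
        (SimpleFunc.stronglyMeasurable _).aestronglyMeasurable) (integrable_const _)
        (fun n => Eventually.of_forall (b n)) (Eventually.of_forall fun y =>
          s.tendsto_approxBounded_of_norm_le (le_max_of_le_right (h2 y))))
    (Eventually.of_forall fun n => ?_)
  simp only [fun x => SimpleFunc.integral_eq_sum (μ := τ x) _ (.of_bound
    (SimpleFunc.stronglyMeasurable _).aestronglyMeasurable _ (Eventually.of_forall (b n)))]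
  rw [← sum_fn]
  refine V.sum_mem fun c _ => ?_
  convert V.smul_mem c (hV _ ((s.approxBounded (max 0 M) n).measurableSet_fiber c)) using 1
  ext x; simp [mul_comm]

theorem core (τ : Kernel α α) [IsFiniteKernel τ] (V : Submodule ℂ (α → ℂ)) [FiniteDimensional ℂ V]
    (hV : ∀ B, MeasurableSet B → (fun x => ((τ x).real B : ℂ)) ∈ V) (ν : ℕ → Measure α)
    [∀ j, IsFiniteMeasure (ν j)] (hν : ∀ j, ν (j + 1) = τ ∘ₘ ν j) {w A B C : ℂ} (hw : ‖w‖ = 1)
    (inj : Function.Injective fun n : ℕ => w ^ n) (hB : B ≠ 0)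
    (hm : ∀ j, ((ν j).real Set.univ : ℂ) = A + B * w ^ j + C * w⁻¹ ^ j) : False := by
  have w0 : w ≠ 0 := by rintro rfl; simp at hw
  have hI : ∀ {E : Type} [NormedAddCommGroup E] [NormedSpace ℝ E] (j) (g : α → E),
      Integrable g (ν (j + 1)) → Integrable (fun x => ∫ y, g y ∂τ x) (ν j) ∧
        ∫ x, ∫ y, g y ∂τ x ∂ν j = ∫ y, g y ∂ν (j + 1) := fun j g hg => by
    rw [hν j, Measure.comp_eq_comp_const_apply] at hg ⊢
    exact ⟨hg.integral_comp, (Kernel.integral_comp hg).symm⟩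
  have hM : ∀ j, (ν j).real Set.univ ≤ ‖A‖ + ‖B‖ + ‖C‖ := fun j => by
    have := (congrArg norm (hm j)).trans_le norm_add₃_le
    exact (le_abs_self _).trans (by simpa [hw] using this)
  have bd : ∀ f : BM α, ∃ M, 0 ≤ M ∧ ∀ j, ‖∫ x, ‖f.1 x‖ ∂ν j‖ ≤ M := fun ⟨f, _, M, h⟩ =>
    ⟨max 0 M * (‖A‖ + ‖B‖ + ‖C‖), by positivity, fun j => (norm_integral_le_of_norm_le_const
      (Eventually.of_forall fun y => by simpa using Or.inr (h y))).trans
      (mul_le_mul_of_nonneg_left (hM j) (le_max_left _ _))⟩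
  have nn : ∀ (f : α → ℂ) j, 0 ≤ ∫ x, ‖f x‖ ∂ν j := fun f j => integral_nonneg fun _ => norm_nonneg _
  let N : Submodule ℂ (BM α) :=
    { carrier := {f | Av fun j => ∫ x, ‖f.1 x‖ ∂ν j}
      add_mem' := fun {f g} h1 h2 => (Av.add h1 h2).mono (nn _) fun j => by
        rw [← integral_add (BM.int f _).norm (BM.int g _).norm]
        exact integral_mono (BM.int _ _).norm ((BM.int f _).norm.add (BM.int g _).norm)
          fun x => norm_add_le _ _
      zero_mem' := by simp [Av]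
      smul_mem' := fun c f h => (Av.mul h ‖c‖).mono (nn _) fun j => by
        simp [integral_const_mul] }
  have hN : N ≤ N.comap (TT τ) := fun f hf => by
    obtain ⟨M, -, h⟩ := bd f
    refine (Av.add hf (tele h)).mono (nn _) fun j => ?_
    obtain ⟨h1, h2⟩ := hI j _ (BM.int f _).norm
    rw [add_sub_cancel, ← h2]
    exact integral_mono (BM.int _ _).norm h1 fun x => norm_integral_le_integral_norm _
  let S : Module.End ℂ (BM α ⧸ N) := N.mapQ N (TT τ) hN
  have fd : FiniteDimensional ℂ (LinearMap.range S) := by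
    have : FiniteDimensional ℂ (V.comap (BM α).subtype) :=
      .of_injective ((BM α).subtype.restrict (q := V) fun _ h => h) fun x y h =>
        Subtype.ext (Subtype.ext (congrArg (fun z : V => z.1) h))
    refine Submodule.finiteDimensional_of_le (S₂ := (V.comap (BM α).subtype).map N.mkQ) ?_
    rintro _ ⟨f, rfl⟩
    obtain ⟨f, rfl⟩ := N.mkQ_surjective f
    exact ⟨TT τ f, TT_mem hV f, rfl⟩
  have step : ∀ e : BM α, TT τ e - w • e ∈ N → e ∈ N := fun e he => by
    by_contra h0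
    obtain ⟨g, g1, g2, g3⟩ : ∃ g : α → ℂ, Measurable g ∧ (∀ x, ‖g x‖ = 1) ∧
        ∀ x, e.1 x = ‖e.1 x‖ * g x := by
      have := e.2.1
      refine ⟨fun x => if e.1 x = 0 then 1 else e.1 x / ‖e.1 x‖, Measurable.ite
        (this (measurableSet_singleton 0)) measurable_const (by fun_prop), fun x => ?_, fun x => ?_⟩ <;>
        by_cases h : e.1 x = 0 <;> simp [h, mul_div_cancel₀]
    have nm : ∀ (n : ℕ) x, ‖(‖e.1 x‖ : ℂ) * g x ^ n‖ = ‖e.1 x‖ := fun n x => by simp [g2]
    let v : ℕ → BM α := fun n => ⟨fun x => ‖e.1 x‖ * g x ^ n, by have := e.2.1; fun_prop,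
      by simpa only [nm] using e.2.2⟩
    have ev : ∀ n, TT τ (v n) - w ^ n • v n ∈ N := fun n => by
      obtain ⟨M, M0, hM⟩ := bd e
      refine Av.small (nn _) fun ε hε => ?_
      obtain ⟨d, d0, d1⟩ : ∃ d, 0 < d ∧ n * d * M ≤ ε := ⟨ε / (n * M + 1), by positivity, by
        rw [mul_right_comm, ← mul_div_assoc, div_le_iff₀ (by positivity)]; nlinarith⟩
      refine ⟨_, (Av.mul (tele hM) (n * (2 / d) + 1)).add (Av.mul he (n * (2 / d) + 2)), fun j => ?_⟩
      obtain ⟨h1, h2⟩ := hI j _ (BM.int e _).norm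
      have i1 := (BM.int e (ν j)).norm
      have i2 := (BM.int (TT τ e - w • e) (ν j)).norm
      have i3 : Integrable (fun x => (n * (2 / d) + 1) * (∫ y, ‖e.1 y‖ ∂τ x - ‖e.1 x‖)) (ν j) :=
        (h1.sub i1).const_mul _
      have i4 : Integrable (fun x => (n * (2 / d) + 1) * (∫ y, ‖e.1 y‖ ∂τ x - ‖e.1 x‖) +
        (n * (2 / d) + 2) * ‖(TT τ e - w • e).1 x‖) (ν j) := i3.add (i2.const_mul _)
      refine (integral_mono (g := fun x => n * d * ∫ y, ‖e.1 y‖ ∂τ x + ((n * (2 / d) + 1) *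
        (∫ y, ‖e.1 y‖ ∂τ x - ‖e.1 x‖) + (n * (2 / d) + 2) * ‖(TT τ e - w • e).1 x‖))
        (BM.int _ _).norm ((h1.const_mul _).add i4) fun x => ?_).trans ?_
      swap
      · rw [integral_add (h1.const_mul _) i4, integral_add i3 (i2.const_mul _), integral_const_mul,
          integral_const_mul, integral_const_mul, integral_sub h1 i1, h2]
        refine add_le_add (le_trans ?_ d1) le_rfl
        exact mul_le_mul_of_nonneg_left ((le_abs_self _).trans (hM _)) (by positivity)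
      obtain ⟨u, hu⟩ : ∃ u, u = w * g x := ⟨_, rfl⟩
      have u1 : ‖u‖ = 1 := by simp [hu, hw, g2]
      have u0 : u ≠ 0 := by rintro rfl; simp at u1
      have j1 := (BM.int e (τ x)).norm
      have j2 : Integrable (fun y => (u⁻¹ * e.1 y).re) (τ x) := ((BM.int e (τ x)).const_mul u⁻¹).re
      have j4 : Integrable (fun y => u ^ n * (‖e.1 y‖ : ℂ)) (τ x) := j1.ofReal.const_mul _
      have a1 : ∫ y, (u⁻¹ * e.1 y).re ∂τ x = ‖e.1 x‖ + (u⁻¹ * (TT τ e - w • e).1 x).re := by
        have := integral_re ((BM.int e (τ x)).const_mul u⁻¹)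
        simp only [RCLike.re_to_complex] at this
        rw [this, integral_const_mul, ← Complex.ofReal_re ‖e.1 x‖, ← Complex.add_re]
        congr 1
        have e3 := g3 x
        simp only [TT, LinearMap.coe_mk, AddHom.coe_mk, Submodule.coe_sub, Submodule.coe_smul,
          Pi.sub_apply, Pi.smul_apply, smul_eq_mul]
        generalize (‖e.1 x‖ : ℂ) = t at e3
        rw [e3]; field_simp; rw [hu]; ring
      have a2 : |(u⁻¹ * (TT τ e - w • e).1 x).re| ≤ ‖(TT τ e - w • e).1 x‖ :=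
        (Complex.abs_re_le_norm _).trans (by simp [u1])
      have a3 : ∫ y, (u⁻¹ * e.1 y).re ∂τ x ≤ ∫ y, ‖e.1 y‖ ∂τ x :=
        integral_mono j2 j1 fun y => (Complex.re_le_norm _).trans (by simp [u1])
      have a4 : (TT τ (v n) - w ^ n • v n).1 x = ∫ y, ((v n).1 y - u ^ n * ‖e.1 y‖) ∂τ x +
          u ^ n * (∫ y, ‖e.1 y‖ ∂τ x - ‖e.1 x‖ : ℝ) := by
        rw [integral_sub (BM.int _ _) j4, integral_const_mul, integral_complex_ofReal]
        simp [TT, v, hu]; ring
      have a5 : ‖∫ y, ((v n).1 y - u ^ n * ‖e.1 y‖) ∂τ x‖ ≤ n * d * ∫ y, ‖e.1 y‖ ∂τ x +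
          n * (2 / d) * (∫ y, ‖e.1 y‖ ∂τ x - ∫ y, (u⁻¹ * e.1 y).re ∂τ x) := by
        have j3 : Integrable (fun y => n * (2 / d) * (‖e.1 y‖ - (u⁻¹ * e.1 y).re)) (τ x) :=
          (j1.sub j2).const_mul _
        rw [← integral_sub j1 j2, ← integral_const_mul, ← integral_const_mul,
          ← integral_add (j1.const_mul _) j3]
        refine norm_integral_le_of_norm_le ((j1.const_mul _).add j3) (Eventually.of_forall fun y => ?_)
        have := mul_le_mul_of_nonneg_left (pow_sub (g2 y) u1 n d0) (norm_nonneg (e.1 y))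
        have e4 : (u⁻¹ * e.1 y).re = ‖e.1 y‖ * (u⁻¹ * g y).re := by
          rw [← Complex.re_ofReal_mul, mul_left_comm, ← g3]
        simp only [v, mul_comm (u ^ n), ← mul_sub, norm_mul, Complex.norm_real, norm_norm, e4]
        linarith
      simp only [a4]
      refine (norm_add_le _ _).trans ?_
      rw [norm_mul, norm_pow, u1, one_pow, one_mul, Complex.norm_real, Real.norm_eq_abs]
      have p : (0 : ℝ) ≤ n * (2 / d) := by positivity
      have a6 := abs_le.1 a2
      have a7 : |∫ y, ‖e.1 y‖ ∂τ x - ‖e.1 x‖| ≤ ∫ y, ‖e.1 y‖ ∂τ x - ‖e.1 x‖ +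
        2 * ‖(TT τ e - w • e).1 x‖ := abs_le.2 ⟨by linarith, by linarith⟩
      rw [a1] at a5
      nlinarith [mul_le_mul_of_nonneg_left a6.1 p]
    have hv : ∀ n, Module.End.HasEigenvector S (w ^ n) (N.mkQ (v n)) := fun n =>
      ⟨Module.End.mem_eigenspace_iff.2 ((Submodule.Quotient.eq N).2 (ev n)), fun h => h0 (by
        have := (Submodule.Quotient.mk_eq_zero N).1 h
        simpa only [N, v, Submodule.mem_mk, AddSubmonoid.mem_mk, AddSubsemigroup.mem_mk,
          Set.mem_ofPred_eq, nm] using this)⟩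
    have li := Module.End.eigenvectors_linearIndependent' S _ inj _ hv
    exact Module.Finite.not_linearIndependent_of_infinite (R := ℂ) (M := LinearMap.range S)
      (fun n => ⟨N.mkQ (v n), (w ^ n)⁻¹ • N.mkQ (v n), by
        rw [map_smul, (hv n).apply_eq_smul, inv_smul_smul₀ (pow_ne_zero n w0)]⟩)
      (LinearIndependent.of_comp (Submodule.subtype _) li)
  have hS : ∀ x ∈ LinearMap.range S, (S - w • (1 : Module.End ℂ (BM α ⧸ N))) x ∈ LinearMap.range S :=
    fun x hx => sub_mem ⟨x, rfl⟩ (Submodule.smul_mem _ w hx)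
  have sj := LinearMap.injective_iff_surjective.1 ((injective_iff_map_eq_zero
    ((S - w • (1 : Module.End ℂ (BM α ⧸ N))).restrict hS)).2 fun ⟨x, hx⟩ h => by
      obtain ⟨e, rfl⟩ := N.mkQ_surjective x
      exact Subtype.ext ((Submodule.Quotient.mk_eq_zero N).2 (step e
        ((Submodule.Quotient.mk_eq_zero N).1 (congrArg Subtype.val h)))))
  let o : BM α := ⟨fun _ => 1, measurable_const, 1, by simp⟩
  let I : ℕ → BM α →ₗ[ℂ] ℂ := fun j =>
    { toFun f := ∫ x, f.1 x ∂ν j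
      map_add' f g := integral_add (BM.int f _) (BM.int g _)
      map_smul' c f := integral_smul c f.1 }
  have I1 : ∀ j f, I j (TT τ f) = I (j + 1) f := fun j f => (hI j _ (BM.int f _)).2
  have I2 : ∀ j, I j o = A + B * w ^ j + C * w⁻¹ ^ j := fun j => by rw [← hm]; simp [I, o]
  have I3 : ∀ j f, ‖I j f‖ ≤ ∫ x, ‖f.1 x‖ ∂ν j := fun j f => norm_integral_le_integral_norm _
  obtain ⟨⟨x, hx⟩, h⟩ := sj ⟨_, N.mkQ (TT τ (TT τ o) - (1 + w⁻¹) • TT τ o + w⁻¹ • o), rfl⟩
  obtain ⟨f, rfl⟩ := N.mkQ_surjective x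
  have a1 : TT τ f - w • f - TT τ (TT τ (TT τ o) - (1 + w⁻¹) • TT τ o + w⁻¹ • o) ∈ N :=
    (Submodule.Quotient.eq N).1 (congrArg Subtype.val h)
  obtain ⟨r, hr⟩ : ∃ r, r = TT τ f - w • f - TT τ (TT τ (TT τ o) - (1 + w⁻¹) • TT τ o + w⁻¹ • o) :=
    ⟨_, rfl⟩
  rw [← hr] at a1
  obtain ⟨M, -, hM⟩ := bd f
  have a2 := tele (a := fun j => w⁻¹ ^ j * I j f) (M := M) fun j => by
    simpa [hw] using (I3 j f).trans ((le_abs_self _).trans (hM j))
  have a3 : Tendsto (fun n : ℕ => (n : ℝ)⁻¹ • ∑ j ∈ range n, w⁻¹ ^ (j + 1) * I j r) atTop (𝓝 0) := by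
    refine squeeze_zero_norm (fun n => ?_) a1
    rw [norm_smul, norm_inv, Real.norm_natCast]
    refine mul_le_mul_of_nonneg_left ((norm_sum_le _ _).trans (sum_le_sum fun j _ => ?_))
      (by positivity)
    simpa [hw] using I3 j r
  have a4 : B * (w - 1) * (w - w⁻¹) = 0 := by
    refine tendsto_nhds_unique (tendsto_const_nhds.congr' ?_) (by simpa only [sub_zero] using a2.sub a3)
    filter_upwards [eventually_gt_atTop 0] with n hn
    rw [← smul_sub, ← sum_sub_distrib, sum_congr rfl (g := fun _ => B * (w - 1) * (w - w⁻¹))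
      fun j _ => by
        simp only [hr, map_sub, map_add, map_smul, I1, I2, smul_eq_mul, pow_succ, inv_pow]
        field_simp; ring]
    simp [smul_smul, hn.ne']
  simp only [mul_eq_zero, hB, false_or, sub_eq_zero] at a4
  rcases a4 with a4 | a4
  · exact absurd (inj (a₁ := 1) (a₂ := 0) (by simpa using a4)) one_ne_zero
  · exact absurd (inj (a₁ := 2) (a₂ := 0) (by
      simp only [pow_zero, sq]; nth_rewrite 2 [a4]; exact mul_inv_cancel₀ w0)) two_ne_zero

end Pool.Agent.H.MP_d5803c_pr
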