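import Pool.Agent.H.MP_d5803c_pr.A

set_option autoImplicit false
open MeasureTheory ProbabilityTheory Finset Filter Topology Real
open scoped ENNReal Classical

namespace Pool.Agent.H.MP_d5803c_pr

noncomputable def ss (k : ℕ) : ℝ := (1 / 2) ^ k * (3 / 4 + cos k / 4)

noncomputable def pp (k : ℕ) : ℝ := ss k - ss (k + 1)

theorem pp_nonneg (k : ℕ) : 0 ≤ pp k := by
  simp only [pp, ss, pow_succ, mul_assoc, ← mul_sub]
  exact mul_nonneg (by positivity) (by linarith [neg_one_le_cos k, cos_le_one (k + 1 : ℕ)])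

theorem pp_sum (m : ℕ) : HasSum (fun j => pp (j + m)) (ss m) := by
  refine (hasSum_iff_tendsto_nat_of_nonneg (fun j => pp_nonneg _) _).2 ?_
  have : Tendsto ss atTop (𝓝 0) := squeeze_zero_norm (fun k => by
    rw [ss, norm_mul, norm_of_nonneg (by positivity)]
    exact mul_le_of_le_one_right (by positivity) (abs_le.2
      ⟨by linarith [neg_one_le_cos k], by linarith [cos_le_one k]⟩))
    (tendsto_pow_atTop_nhds_zero_of_lt_one (by norm_num) (by norm_num : (1 / 2 : ℝ) < 1))
  simp only [pp, add_right_comm _ m 1, sum_range_sub' (fun j => ss (j + m)), zero_add]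
  simpa using (this.comp (tendsto_add_atTop_nat m)).const_sub (ss m)

noncomputable def QQ : Measure ℕ := Measure.sum fun k => ENNReal.ofReal (pp k) • Measure.dirac k

theorem QQ_Ici (m : ℕ) : QQ (Set.Ici m) = ENNReal.ofReal (ss m) := by
  rw [QQ, Measure.sum_apply _ .of_discrete, ← (pp_sum m).tsum_eq, ENNReal.ofReal_tsum_of_nonneg
    (fun _ => pp_nonneg _) (pp_sum m).summable, ← Summable.sum_add_tsum_nat_add' (k := m)
    ENNReal.summable, sum_eq_zero fun k hk => by simp [mem_range.1 hk]]
  simp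

instance : IsProbabilityMeasure QQ := ⟨by simpa [ss] using QQ_Ici 0 |>.trans (by
  simp [ss]; norm_num)⟩

def yy (n k : ℕ) : Fin n → Bool := fun i => decide (k ≤ i)

theorem sm {a : ℕ → ℝ} (ha : Summable a) {n : ℕ} (g : (Fin n → Bool) → ℝ) (y : ℕ → Fin n → Bool) :
    Summable fun j => a j * g (y j) :=
  (ha.norm.mul_right ‖g‖).of_norm_bounded fun j => (norm_mul_le _ _).trans
    (mul_le_mul_of_nonneg_left (norm_le_pi_norm g _) (norm_nonneg _))

noncomputable def ll (a : ℕ → ℝ) (ha : Summable a) (n : ℕ) : ((Fin n → Bool) → ℝ) →ₗ[ℝ] ℝ where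
  toFun g := ∑' j, a j * g (yy n j)
  map_add' f g := by simpa [mul_add] using (sm ha f _).tsum_add (sm ha g _)
  map_smul' c g := by simp [← tsum_mul_left, mul_left_comm]

theorem geo (f : ℝ → ℝ) (h : ∀ x, |f x| ≤ 1) : Summable fun j : ℕ => (1 / 2) ^ j * f j :=
  summable_geometric_two.of_norm_bounded fun j => by
    rw [norm_mul, norm_of_nonneg (by positivity)]
    exact mul_le_of_le_one_right (by positivity) (h j)

noncomputable def LL (n : ℕ) : Fin 4 → ((Fin n → Bool) → ℝ) →ₗ[ℝ] ℝ :=
  ![LinearMap.proj (yy n 0), ll _ (geo (fun _ => 1) (by simp)) n, ll _ (geo cos abs_cos_le_one) n,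
    ll _ (geo sin abs_sin_le_one) n]

theorem pair_eq (m : ℕ) (f : (Fin m → Bool) → ℝ) : ∃ c : Fin 4 → ℝ, ∀ n (g : (Fin n → Bool) → ℝ),
    ∫ k, f (fun i => decide (k ≤ i)) * g (fun i => decide (k ≤ m + i)) ∂QQ =
      ∑ i, c i * LL n i g := by
  refine ⟨![∑ k ∈ range m, pp k * f (yy m k), f (fun _ => false) * ((1 / 2) ^ m * (3 / 8)),
    f (fun _ => false) * ((1 / 2) ^ m * (cos m / 4 - cos (m + 1) / 8)),
    f (fun _ => false) * ((1 / 2) ^ m * (sin (m + 1) / 8 - sin m / 4))], fun n g => ?_⟩
  have s0 : Summable pp := by simpa using (pp_sum 0).summable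
  rw [integral_countable (.of_bound (measurable_from_top.aestronglyMeasurable) (‖f‖ * ‖g‖)
    (Eventually.of_forall fun k => (norm_mul_le _ _).trans (mul_le_mul (norm_le_pi_norm f _)
      (norm_le_pi_norm g _) (norm_nonneg _) (norm_nonneg _))))]
  have e : ∀ k, QQ.real {k} = pp k := fun k => by
    simp [QQ, Measure.real, Measure.sum_apply, Pi.single_apply, pp_nonneg]
  simp only [e, smul_eq_mul, ← mul_assoc]
  rw [← (sm (sm s0 f fun k i => decide (k ≤ i)) g fun k i =>
    decide (k ≤ m + i)).sum_add_tsum_nat_add m, Fin.sum_univ_four]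
  simp only [LL, Matrix.cons_val, ll, LinearMap.coe_mk, AddHom.coe_mk, LinearMap.proj_apply,
    ← tsum_mul_left, add_assoc]
  have s1 := fun c => (sm (geo (fun _ => 1) (by simp)) g (yy n)).mul_left c
  have s2 := fun c => (sm (geo cos abs_cos_le_one) g (yy n)).mul_left c
  have s3 := fun c => (sm (geo sin abs_sin_le_one) g (yy n)).mul_left c
  rw [← (s2 _).tsum_add (s3 _), ← (s1 _).tsum_add ((s2 _).add (s3 _)), sum_mul]
  congr 1
  · refine sum_congr rfl fun k hk => ?_
    congr 2; ext i; simp at hk; simp [yy]; omega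
  · refine tsum_congr fun j => ?_
    rw [show (fun i : Fin m => decide (j + m ≤ i)) = fun _ => false from funext fun i => by
      simp; omega, show (fun i : Fin n => decide (j + m ≤ m + i)) = yy n j from funext fun i => by
      simp [yy, add_comm]]
    simp only [pp, ss, Nat.cast_add, Nat.cast_one, add_assoc (j : ℝ), cos_add (j : ℝ), pow_add]
    ring

theorem findim : ∃ J : Submodule ℝ (Π₀ n : ℕ, (Fin n → Bool) → ℝ), (∀ η, η ∈ J ↔
    ∀ ξ : Π₀ n : ℕ, (Fin n → Bool) → ℝ, (ξ.sum fun m f => η.sum fun n g =>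
      ∫ k, f (fun i => decide (k ≤ i)) * g (fun i => decide (k ≤ m + i)) ∂QQ) = 0) ∧
    FiniteDimensional ℝ ((Π₀ n : ℕ, (Fin n → Bool) → ℝ) ⧸ J) := by
  choose c hc using pair_eq
  let G : (Π₀ n : ℕ, (Fin n → Bool) → ℝ) →ₗ[ℝ] Fin 4 → ℝ :=
    LinearMap.pi fun i => DFinsupp.lsum ℕ fun n => LL n i
  refine ⟨⨅ ξ : Π₀ n : ℕ, (Fin n → Bool) → ℝ, LinearMap.ker (∑ m ∈ ξ.support, ∑ i, c m (ξ m) i •
    (LinearMap.proj i ∘ₗ G)), fun η => ?_, ?_⟩
  · simp only [Submodule.mem_iInf, LinearMap.mem_ker, hc]
    refine forall_congr' fun ξ => Eq.congr_left ?_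
    simp only [G, LinearMap.sum_apply, LinearMap.smul_apply, LinearMap.comp_apply,
      LinearMap.proj_apply, LinearMap.pi_apply, DFinsupp.lsum_apply_apply,
      DFinsupp.sumAddHom_apply, DFinsupp.sum, smul_eq_mul, mul_sum]
    exact sum_congr rfl fun m _ => sum_comm
  · have := G.quotKerEquivRange.symm.finiteDimensional
    refine Module.Finite.of_surjective (Submodule.factor (p := LinearMap.ker G) fun η hη => ?_)
      (Submodule.factor_surjective _)
    simp [LinearMap.mem_ker.1 hη]

theorem nofr {Ω S : Type*} [MeasurableSpace Ω] [MeasurableSpace S] (P : Measure Ω)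
    [IsProbabilityMeasure P] (X : ℕ → Ω → S) (κ : Kernel S S) [IsMarkovKernel κ] (φ : S → Bool)
    (hφ : Measurable φ) (hX : ∀ n, Measurable (X n))
    (hM : ∀ n, P.map (fun ω => (fun i : Fin (n + 1) => X i ω, X (n + 1) ω)) =
      P.map (fun ω (i : Fin (n + 1)) => X i ω) ⊗ₘ
        κ.comap (fun h => h (Fin.last n)) (measurable_pi_apply _))
    {r : ℕ} (a : Fin r → S → ℝ) (b : Fin r → SignedMeasure S)
    (hr : ∀ x B, MeasurableSet B → (κ x).real B = ∑ j, a j x * b j B)
    (h : ∀ n, P.map (fun ω (i : Fin n) => φ (X i ω)) = QQ.map (yy n)) : False := by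
  have hZ : MeasurableSet (φ ⁻¹' {false}) := hφ .of_discrete
  have mh : ∀ n, Measurable fun ω (i : Fin (n + 1)) => X i ω := fun n => by fun_prop
  let H : ∀ n, Set (Fin (n + 1) → S) := fun n => Set.univ.pi fun _ => φ ⁻¹' {false}
  have mH : ∀ n, MeasurableSet (H n) := fun n => .univ_pi fun _ => hZ
  let ν : ℕ → Measure S := fun j => (2 ^ j : NNReal) •
    (P.restrict ((fun ω (i : Fin (j + 1)) => X i ω) ⁻¹' H j)).map (X j)
  have : FiniteDimensional ℂ (Submodule.span ℂ (Set.range fun j x => (a j x : ℂ))) :=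
    .span_of_finite _ (Set.finite_range _)
  refine core (κ.restrict hZ + κ.restrict hZ) (Submodule.span ℂ (Set.range fun j x => (a j x : ℂ)))
    (fun B hB => ?_) ν (fun j => ?_) (w := Complex.exp Complex.I) (A := 3 / 8)
    (B := Complex.exp Complex.I / 16) (C := (Complex.exp Complex.I)⁻¹ / 16) (by
      simpa using Complex.norm_exp_ofReal_mul_I 1) (fun m n e => ?_) (by simp) fun j => ?_
  · convert Submodule.sum_mem _ (t := univ) fun j _ => Submodule.smul_mem _
      (2 * b j (B ∩ φ ⁻¹' {false}) : ℂ) (Submodule.subset_span (R := ℂ)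
        (s := Set.range fun j x => (a j x : ℂ)) ⟨j, rfl⟩) using 1
    ext x
    rw [Kernel.add_apply, measureReal_add_apply, Kernel.restrict_apply, measureReal_restrict_apply hB,
      hr x _ (hB.inter hZ), ← two_mul, mul_sum]
    simp; exact sum_congr rfl fun j _ => by ring
  · ext B hB
    have := congrArg (fun μ => μ (H j ×ˢ (B ∩ φ ⁻¹' {false}))) (hM j)
    simp only [Measure.compProd_apply_prod (mH j) (hB.inter hZ), Kernel.comap_apply] at this
    rw [Measure.map_apply ((mh j).prodMk (hX _)) ((mH j).prod (hB.inter hZ)), setLIntegral_map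
      (f := fun h => κ (h (Fin.last j)) (B ∩ φ ⁻¹' {false})) (mH j) (by exact (κ.measurable_coe (hB.inter hZ)).comp (measurable_pi_apply (Fin.last j)))
      (mh j)] at this
    rw [Measure.bind_apply hB (Kernel.aemeasurable _)]
    simp only [ν, Measure.smul_apply, lintegral_smul_measure, Kernel.add_apply, Measure.add_apply,
      Kernel.restrict_apply' _ _ _ hB, ← two_mul]
    rw [lintegral_const_mul _ (κ.measurable_coe (hB.inter hZ)), lintegral_map
      (κ.measurable_coe (hB.inter hZ)) (hX _), Measure.map_apply (hX _) hB,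
      Measure.restrict_apply (hX _ hB), pow_succ, mul_smul]
    simp only [Fin.val_last] at this
    rw [← this]
    congr 1
    simp only [ENNReal.smul_def, ENNReal.coe_ofNat, smul_eq_mul]
    congr 2
    ext ω
    simp [H, Fin.forall_fin_succ' (n := j + 1)]; tauto
  · simp only [← Complex.exp_nat_mul, Complex.exp_eq_exp_iff_exists_int] at e
    obtain ⟨k, e⟩ := e
    have e2 := congrArg Complex.im e
    simp at e2
    by_contra h1
    have k0 : k ≠ 0 := by rintro rfl; simp at e2; exact h1 e2
    refine irrational_pi ⟨(m - n) / (2 * k), ?_⟩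
    push_cast; field_simp; linarith
  · have := congrArg (fun μ => μ {fun _ => false}) (h (j + 1))
    rw [Measure.map_apply (by fun_prop) .of_discrete, Measure.map_apply measurable_from_top .of_discrete,
      show yy (j + 1) ⁻¹' {fun _ => false} = Set.Ici (j + 1) from Set.ext fun k => by
        simp only [Set.mem_preimage, Set.mem_singleton_iff, funext_iff, yy, decide_eq_false_iff_not,
          not_le, Set.mem_Ici]
        exact ⟨fun h => h (Fin.last j), fun h i => i.2.trans_le h⟩, QQ_Ici] at this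
    simp only [ν, measureReal_nnreal_smul_apply]
    rw [Measure.real, Measure.map_apply (hX _) .univ, Set.preimage_univ, Measure.restrict_apply_univ,
      show (fun ω (i : Fin (j + 1)) => X i ω) ⁻¹' H j =
        (fun ω (i : Fin (j + 1)) => φ (X i ω)) ⁻¹' {fun _ => false} from Set.ext fun ω => by
        simp [H, funext_iff], this, ENNReal.toReal_ofReal (by
          have := neg_one_le_cos (j + 1 : ℕ)
          exact mul_nonneg (by positivity) (by linarith)), ss]
    push_cast
    rw [Complex.cos, inv_pow, ← Complex.exp_nat_mul, neg_mul, Complex.exp_neg, add_mul, one_mul,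
      Complex.exp_add, one_div_pow]
    field_simp; ring

end Pool.Agent.H.MP_d5803c_pr
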